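import Mathlib

/-!
# The ideal of the Pfaffians has no elements of degree one
-/

set_option autoImplicit false

namespace Pool.Agent.Y374.PF

open MvPolynomial Finset

variable {k : Type*} [Field k] {N : ℕ}

/-- the substitution `xᵢ ↦ t ^ w i xᵢ` -/
noncomputable def φ (w : Fin N → ℕ) :
    MvPolynomial (Fin N) k →ₐ[k] Polynomial (MvPolynomial (Fin N) k) :=
  aeval fun i => Polynomial.C (X i) * Polynomial.X ^ w i

theorem φ_hom {w : Fin N → ℕ} {f : MvPolynomial (Fin N) k} {m : ℕ}
    (hf : IsWeightedHomogeneous w f m) : φ w f = Polynomial.C f * Polynomial.X ^ m := by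
  have h1 : ∀ d : Fin N →₀ ℕ, ∀ c : k, φ w (monomial d c) =
      Polynomial.C (monomial d c) * Polynomial.X ^ (Finsupp.weight w d) := by
    intro d c
    have e1 : φ w (monomial d c) = algebraMap k _ c *
        d.prod fun i n => (Polynomial.C (X i) * Polynomial.X ^ w i) ^ n := by
      unfold φ
      rw [aeval_monomial]
    rw [e1, Finsupp.weight_apply, monomial_eq, Finsupp.prod, Finsupp.sum, Finsupp.prod]
    simp only [mul_pow, Finset.prod_mul_distrib, map_mul, map_prod, map_pow, ← pow_mul,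
      Finset.prod_pow_eq_pow_sum, smul_eq_mul, mul_comm (w _)]
    rw [mul_assoc]
    rfl
  conv_lhs => rw [f.as_sum]
  conv_rhs => rw [f.as_sum]
  rw [map_sum, map_sum, Finset.sum_mul]
  refine Finset.sum_congr rfl (fun d hd => ?_)
  rw [h1, hf (mem_support_iff.1 hd)]

theorem X_sq_dvd {R : Type*} [CommRing R] [IsDomain R] {q : Polynomial R}
    (h : Polynomial.X ^ 4 ∣ q ^ 2) : Polynomial.X ^ 2 ∣ q := by
  have step : ∀ q : Polynomial R, Polynomial.X ∣ q ^ 2 → Polynomial.X ∣ q := fun q hq =>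
    (Polynomial.prime_X).dvd_of_dvd_pow hq
  obtain ⟨q1, rfl⟩ := step q ((Dvd.intro_left _ (by ring :
    (Polynomial.X : Polynomial R) ^ 3 * Polynomial.X = Polynomial.X ^ 4)).trans h)
  have h2 : Polynomial.X ^ 2 ∣ q1 ^ 2 := by
    have h3 : (Polynomial.X : Polynomial R) ^ 2 * Polynomial.X ^ 2 ∣ Polynomial.X ^ 2 * q1 ^ 2 := by
      have e1 : (Polynomial.X : Polynomial R) ^ 2 * Polynomial.X ^ 2 = Polynomial.X ^ 4 := by ring
      have e2 : (Polynomial.X * q1) ^ 2 = Polynomial.X ^ 2 * q1 ^ 2 := by ring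
      rw [e1, ← e2]
      exact h
    exact (mul_dvd_mul_iff_left (pow_ne_zero 2 Polynomial.X_ne_zero)).1 h3
  obtain ⟨q2, rfl⟩ := step q1 ((Dvd.intro _ (by ring :
    (Polynomial.X : Polynomial R) * Polynomial.X = Polynomial.X ^ 2)).trans h2)
  exact ⟨q2, by ring⟩

/-- An element of degree one of the ideal of the Pfaffians is zero. -/
theorem eq_zero_of_mem_one {w : Fin N → ℕ} {n : ℕ} (hn : 4 ≤ n)
    (M : Fin (n + 1) → Matrix (Fin n) (Fin n) (MvPolynomial (Fin N) k))
    (hM : ∀ i a b, ∃ m : ℕ, 0 < m ∧ IsWeightedHomogeneous w (M i a b) m)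
    (pf : Fin (n + 1) → MvPolynomial (Fin N) k) (hpf : ∀ i, pf i ^ 2 = (M i).det)
    {u : MvPolynomial (Fin N) k} (hu : IsWeightedHomogeneous w u 1)
    (hmem : u ∈ Ideal.span (Set.range pf)) : u = 0 := by
  classical
  have h1 : ∀ i, (Polynomial.X : Polynomial (MvPolynomial (Fin N) k)) ^ 2 ∣ φ w (pf i) := by
    intro i
    apply X_sq_dvd
    have h2 : ∀ a b, (Polynomial.X : Polynomial (MvPolynomial (Fin N) k)) ∣ φ w (M i a b) := by
      intro a b
      obtain ⟨m, hm, hom⟩ := hM i a b
      rw [φ_hom hom]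
      exact Dvd.dvd.mul_left (dvd_pow_self _ hm.ne') _
    choose Q hQ using h2
    have h3 : (φ w).toRingHom.mapMatrix (M i) =
        (Polynomial.X : Polynomial (MvPolynomial (Fin N) k)) • (Matrix.of Q) := by
      ext1 a b
      simp only [RingHom.mapMatrix_apply, Matrix.map_apply, Matrix.smul_apply, Matrix.of_apply,
        smul_eq_mul]
      exact hQ a b
    have h4 : φ w (pf i) ^ 2 = Polynomial.X ^ n * (Matrix.of Q).det := by
      rw [← map_pow, hpf]
      have h5 : φ w ((M i).det) = ((φ w).toRingHom.mapMatrix (M i)).det := by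
        rw [← RingHom.map_det]; rfl
      rw [h5, h3, Matrix.det_smul, Fintype.card_fin]
    rw [h4]
    exact Dvd.dvd.mul_right (pow_dvd_pow _ hn) _
  have h2 : (Polynomial.X : Polynomial (MvPolynomial (Fin N) k)) ^ 2 ∣ φ w u := by
    have h3 : Ideal.span (Set.range pf) ≤
        Ideal.comap (φ w).toRingHom (Ideal.span {Polynomial.X ^ 2}) := by
      rw [Ideal.span_le]
      rintro _ ⟨i, rfl⟩
      rw [SetLike.mem_coe, Ideal.mem_comap, Ideal.mem_span_singleton]
      exact h1 i
    have h4 := h3 hmem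
    rw [Ideal.mem_comap, Ideal.mem_span_singleton] at h4
    exact h4
  rw [φ_hom hu, pow_one, Polynomial.X_pow_dvd_iff] at h2
  have h3 := h2 1 (by norm_num)
  simpa using h3

theorem mem_span_X {w : Fin N → ℕ} (hw : ∀ i, 0 < w i) {f : MvPolynomial (Fin N) k}
    (hf : IsWeightedHomogeneous w f 1) :
    f ∈ Submodule.span k (Set.range (X : Fin N → MvPolynomial (Fin N) k)) := by
  classical
  rw [f.as_sum]
  apply Submodule.sum_mem
  intro d hd
  have h1 : Finsupp.weight w d = 1 := hf (mem_support_iff.1 hd)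
  rw [Finsupp.weight_apply, Finsupp.sum_fintype d (fun i c => c • w i) (by simp)] at h1
  have h2 : ∃ i, d i ≠ 0 := by
    by_contra hcon
    push Not at hcon
    simp [hcon] at h1
  obtain ⟨i, hi⟩ := h2
  have h3 : d i • w i + ∑ j ∈ univ.erase i, d j • w j = 1 := by
    rw [← h1]
    exact Finset.add_sum_erase univ (fun j => d j • w j) (mem_univ i)
  have h4 : 1 ≤ d i • w i := by
    rw [smul_eq_mul]
    exact Nat.mul_pos (Nat.pos_of_ne_zero hi) (hw i)
  have h5 : ∑ j ∈ univ.erase i, d j • w j = 0 := by omega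
  have h6 : d i = 1 := by
    have h7 : d i * w i = 1 := by
      have : d i • w i = 1 := by omega
      simpa using this
    exact Nat.eq_one_of_mul_eq_one_right h7
  have h8 : d = Finsupp.single i 1 := by
    ext j
    rcases eq_or_ne j i with rfl | hj
    · rw [h6, Finsupp.single_eq_same]
    · have h9 := (Finset.sum_eq_zero_iff.1 h5) j (Finset.mem_erase.2 ⟨hj, mem_univ j⟩)
      rw [smul_eq_mul, mul_eq_zero] at h9
      rcases h9 with h9 | h9
      · rw [h9, Finsupp.single_eq_of_ne hj]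
      · have := hw j
        omega
  rw [h8]
  have h9 : (monomial (Finsupp.single i 1) (coeff (Finsupp.single i 1) f) :
      MvPolynomial (Fin N) k) = (coeff (Finsupp.single i 1) f) • X i := by
    rw [X, smul_monomial, smul_eq_mul, mul_one]
  rw [h9]
  exact Submodule.smul_mem _ _ (Submodule.subset_span ⟨i, rfl⟩)

end Pool.Agent.Y374.PF
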