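import Mathlib

/-!
# Sums of degrees
-/

set_option autoImplicit false

namespace Pool.Agent.Y374.PF

open Finset

/-- twice the sum over pairs -/
theorem sum_pairs (n : ℕ) (e : Fin n → ℤ) (ε : ℤ) :
    2 * ∑ x ∈ univ.filter (fun x : Fin n × Fin n => x.1 < x.2), (e x.1 + e x.2 + ε)
      = 2 * (n - 1) * ∑ a, e a + (n * n - n) * ε := by
  classical
  set F : Fin n × Fin n → ℤ := fun x => e x.1 + e x.2 + ε with hF
  have h1 : ∑ x ∈ univ.filter (fun x : Fin n × Fin n => x.1 < x.2), F x
      = ∑ x ∈ univ.filter (fun x : Fin n × Fin n => x.2 < x.1), F x := by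
    refine Finset.sum_bij (fun x _ => (x.2, x.1)) ?_ ?_ ?_ ?_
    · intro x hx; simpa using hx
    · intro x _ y _ h
      simp only [Prod.mk.injEq] at h
      exact Prod.ext h.2 h.1
    · intro y hy
      exact ⟨(y.2, y.1), by simpa using hy, rfl⟩
    · intro x _
      simp only [hF]
      ring
  have h2 : ∑ x ∈ univ.filter (fun x : Fin n × Fin n => x.1 = x.2), F x
      = ∑ a, (2 * e a + ε) := by
    rw [show (univ.filter fun x : Fin n × Fin n => x.1 = x.2)
      = univ.image (fun a : Fin n => (a, a)) from ?_, Finset.sum_image]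
    · refine Finset.sum_congr rfl (fun a _ => ?_)
      simp only [hF]
      ring
    · intro a _ b _ h
      simpa using h
    · ext ⟨a, b⟩
      simp
  have h3 : ∑ x : Fin n × Fin n, F x = 2 * n * ∑ a, e a + n * n * ε := by
    rw [Fintype.sum_prod_type]
    simp only [hF, Finset.sum_add_distrib, Finset.sum_const, Finset.card_univ, Fintype.card_fin,
      nsmul_eq_mul, ← Finset.mul_sum]
    ring
  have h4 := Finset.sum_filter_add_sum_filter_not (univ : Finset (Fin n × Fin n))
    (fun x => x.1 < x.2) F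
  have h5 : ∑ x ∈ univ.filter (fun x : Fin n × Fin n => ¬ x.1 < x.2), F x
      = ∑ x ∈ univ.filter (fun x : Fin n × Fin n => x.2 < x.1), F x
        + ∑ x ∈ univ.filter (fun x : Fin n × Fin n => x.1 = x.2), F x := by
    rw [← Finset.sum_union]
    · congr 1
      ext x
      simp only [mem_filter, mem_univ, true_and, mem_union]
      constructor
      · intro h
        rcases lt_or_eq_of_le (not_lt.1 h) with h' | h'
        · exact Or.inl h'
        · exact Or.inr h'.symm
      · rintro (h | h)
        · exact not_lt.2 h.le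
        · exact not_lt.2 h.symm.le
    · rw [Finset.disjoint_filter]
      intro x _ h h'
      exact absurd h' (ne_of_gt h)
  have h6 : ∑ a : Fin n, (2 * e a + ε) = 2 * ∑ a, e a + n * ε := by
    rw [Finset.sum_add_distrib, ← Finset.mul_sum]
    simp
  rw [h5, h3] at h4
  rw [h2, h6, ← h1] at h4
  linear_combination h4

/-- the pairing inequality -/
theorem pair_nonneg {t x y : ℤ} (ht : 0 ≤ t) (hxy : 0 < x + y) (hx : -t ≤ x) (hy : -t ≤ y) :
    0 ≤ min t x + min t y := by
  rcases le_total t x with h1 | h1 <;> rcases le_total t y with h2 | h2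
  · rw [min_eq_left h1, min_eq_left h2]; omega
  · rw [min_eq_left h1, min_eq_right h2]; omega
  · rw [min_eq_right h1, min_eq_left h2]; omega
  · rw [min_eq_right h1, min_eq_right h2]; omega

theorem ineq_small {ρ : ℕ} (hρ : 2 ≤ ρ) (y : Fin (2 * ρ + 1) → ℤ) (hmono : Monotone y)
    (hpos : ∀ a b : Fin (2 * ρ + 1), a < b → 2 * ρ + 1 ≤ (a : ℕ) + b + 2 → 0 < y a + y b)
    (h01 : y ⟨0, by omega⟩ + y ⟨1, by omega⟩ ≤ 0) :
    ∑ b ∈ univ.filter (fun b : Fin (2 * ρ + 1) => 2 ≤ (b : ℕ)),
      (max (y ⟨0, by omega⟩ + y b) 0 + max (y ⟨1, by omega⟩ + y b) 0) ≤ 2 * ∑ a, y a := by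
  classical
  set i0 : Fin (2 * ρ + 1) := ⟨0, by omega⟩ with hi0
  set i1 : Fin (2 * ρ + 1) := ⟨1, by omega⟩ with hi1
  set iu : Fin (2 * ρ + 1) := ⟨2 * ρ - 1, by omega⟩ with hiu
  set iv : Fin (2 * ρ + 1) := ⟨2 * ρ, by omega⟩ with hiv
  have hle01 : y i0 ≤ y i1 := hmono (by rw [Fin.le_def]; simp [hi0, hi1])
  set t1 : ℤ := - y i0 with ht1
  set t2 : ℤ := - y i1 with ht2
  have hmax : ∀ c b : ℤ, max (c + b) 0 = b - min (-c) b := by
    intro c b
    rcases le_total (c + b) 0 with h | h
    · rw [max_eq_right h, min_eq_right (by omega)]; omega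
    · rw [max_eq_left h, min_eq_left (by omega)]; omega
  have hsum : ∀ b : Fin (2 * ρ + 1), max (y i0 + y b) 0 + max (y i1 + y b) 0
      = 2 * y b - (min t1 (y b) + min t2 (y b)) := by
    intro b
    rw [hmax, hmax]
    ring
  simp only [hsum]
  rw [Finset.sum_sub_distrib, ← Finset.mul_sum]
  set S2 : Finset (Fin (2 * ρ + 1)) := univ.filter (fun b => 2 ≤ (b : ℕ)) with hS2
  set Mid : Finset (Fin (2 * ρ + 1)) := univ.filter (fun b => 2 ≤ (b : ℕ) ∧ (b : ℕ) ≤ 2 * ρ - 2)
    with hMid
  have hS2' : S2 = insert iu (insert iv Mid) := by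
    ext b
    simp only [hS2, hMid, mem_filter, mem_univ, true_and, mem_insert, Fin.ext_iff, hiu, hiv]
    omega
  have hiuM : iu ∉ insert iv Mid := by
    simp only [hMid, mem_filter, mem_univ, true_and, mem_insert, Fin.ext_iff, hiu, hiv]
    omega
  have hivM : iv ∉ Mid := by
    simp only [hMid, mem_filter, mem_univ, true_and, hiv]
    omega
  have htot : ∑ a, y a = y i0 + y i1 + ∑ b ∈ S2, y b := by
    have h1 := Finset.sum_filter_add_sum_filter_not (univ : Finset (Fin (2 * ρ + 1)))
      (fun b => 2 ≤ (b : ℕ)) y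
    have h2 : (univ.filter fun b : Fin (2 * ρ + 1) => ¬ 2 ≤ (b : ℕ)) = {i0, i1} := by
      ext b
      simp only [mem_filter, mem_univ, true_and, mem_insert, mem_singleton, Fin.ext_iff, hi0, hi1]
      omega
    rw [h2, Finset.sum_pair (by rw [Ne, Fin.ext_iff]; simp [hi0, hi1])] at h1
    rw [← h1]
    ring
  have hu0 : 0 < y i0 + y iu := hpos i0 iu (by rw [Fin.lt_def]; simp only [hi0, hiu]; omega)
    (by simp only [hi0, hiu]; omega)
  have hu1 : 0 < y i1 + y iu := hpos i1 iu (by rw [Fin.lt_def]; simp only [hi1, hiu]; omega)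
    (by simp only [hi1, hiu]; omega)
  have huv : y iu ≤ y iv := hmono (by rw [Fin.le_def]; simp only [hiu, hiv]; omega)
  have hrevpos : ∀ b : Fin (2 * ρ + 1), 0 < y b + y (Fin.rev b) := by
    intro b
    have hr : ((Fin.rev b : Fin (2 * ρ + 1)) : ℕ) = 2 * ρ - b := by
      rw [Fin.val_rev]; omega
    rcases lt_trichotomy b (Fin.rev b) with h | h | h
    · exact hpos _ _ h (by rw [hr]; have := b.2; omega)
    · have hb : (b : ℕ) = ρ := by
        have := congrArg (fun x : Fin (2 * ρ + 1) => (x : ℕ)) h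
        omega
      rw [← h]
      have h1 := hpos ⟨ρ - 1, by omega⟩ b (by rw [Fin.lt_def, hb]; simp only; omega)
        (by rw [hb]; simp only; omega)
      have h2 : y ⟨ρ - 1, by omega⟩ ≤ y b := hmono (by rw [Fin.le_def, hb]; simp only; omega)
      omega
    · have := hpos _ _ h (by rw [hr]; have := b.2; omega)
      omega
  have hmid : 0 ≤ ∑ b ∈ Mid, (min t1 (y b) + min t2 (y b)) := by
    by_cases ht : 0 ≤ t2
    · have hrev : ∑ b ∈ Mid, (min t1 (y b) + min t2 (y b))
          = ∑ b ∈ Mid, (min t1 (y (Fin.rev b)) + min t2 (y (Fin.rev b))) := by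
        refine Finset.sum_bij (fun b _ => Fin.rev b) ?_ ?_ ?_ ?_
        · intro b hb
          simp only [hMid, mem_filter, mem_univ, true_and, Fin.val_rev] at hb ⊢
          omega
        · intro a _ b _ h
          exact Fin.rev_injective h
        · intro b hb
          refine ⟨Fin.rev b, ?_, Fin.rev_rev b⟩
          simp only [hMid, mem_filter, mem_univ, true_and, Fin.val_rev] at hb ⊢
          omega
        · intro b _
          rw [Fin.rev_rev]
      have h2 : 0 ≤ ∑ b ∈ Mid, ((min t1 (y b) + min t2 (y b))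
          + (min t1 (y (Fin.rev b)) + min t2 (y (Fin.rev b)))) := by
        refine Finset.sum_nonneg (fun b hb => ?_)
        simp only [hMid, mem_filter, mem_univ, true_and] at hb
        have hb0 : y i0 ≤ y b := hmono (by rw [Fin.le_def]; simp only [hi0]; omega)
        have hb1 : y i1 ≤ y b := hmono (by rw [Fin.le_def]; simp only [hi1]; omega)
        have hr0 : y i0 ≤ y (Fin.rev b) := hmono (by
          rw [Fin.le_def]; simp only [hi0]; omega)
        have hr1 : y i1 ≤ y (Fin.rev b) := hmono (by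
          rw [Fin.le_def]; simp only [hi1, Fin.val_rev]; omega)
        have h3 := pair_nonneg (t := t1) (x := y b) (y := y (Fin.rev b)) (by omega) (hrevpos b)
          (by omega) (by omega)
        have h4 := pair_nonneg (t := t2) (x := y b) (y := y (Fin.rev b)) ht (hrevpos b)
          (by omega) (by omega)
        omega
      rw [Finset.sum_add_distrib, ← hrev] at h2
      omega
    · push Not at ht
      refine Finset.sum_nonneg (fun b hb => ?_)
      simp only [hMid, mem_filter, mem_univ, true_and] at hb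
      have hb1 : y i1 ≤ y b := hmono (by rw [Fin.le_def]; simp only [hi1]; omega)
      rw [min_eq_left (by omega : t2 ≤ y b)]
      rcases le_total t1 (y b) with h | h
      · rw [min_eq_left h]; omega
      · rw [min_eq_right h]; omega
  have hS2sum : ∑ b ∈ S2, (min t1 (y b) + min t2 (y b))
      = 2 * t1 + 2 * t2 + ∑ b ∈ Mid, (min t1 (y b) + min t2 (y b)) := by
    rw [hS2', Finset.sum_insert hiuM, Finset.sum_insert hivM]
    rw [min_eq_left (by omega : t1 ≤ y iu), min_eq_left (by omega : t2 ≤ y iu),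
      min_eq_left (by omega : t1 ≤ y iv), min_eq_left (by omega : t2 ≤ y iv)]
    ring
  rw [hS2sum, htot]
  omega

end Pool.Agent.Y374.PF
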