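import Pool.Agent.Y374.PF.Count

/-!
# The counting inequality with the first two rows
-/

set_option autoImplicit false
set_option linter.unusedSectionVars false

namespace Pool.Agent.Y374.PF

open MvPolynomial Finset Pool.Agent.TH144.NV

variable {k : Type*} [Field k] [IsAlgClosed k] {N ρ : ℕ}

/-- If all entries outside the list `κ` of entries of the rows `a0`, `a1` vanish on the coordinate
subspace, the number of coordinates is at most the length of the list. -/
theorem count_rows
    (M : Matrix (Fin (2 * ρ + 1)) (Fin (2 * ρ + 1)) (MvPolynomial (Fin N) k))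
    (hskew : ∀ a b, M b a = - M a b) (h0 : ∀ a b, eval 0 (M a b) = 0)
    (pf : Fin (2 * ρ + 1) → MvPolynomial (Fin N) k)
    (hpf : ∀ i, pf i ^ 2 = (M.submatrix i.succAbove i.succAbove).det)
    (T : Finset (Fin N)) (a0 a1 : Fin (2 * ρ + 1)) (ha : a0 ≠ a1)
    {κ : Type*} [Fintype κ] (row : κ → Fin (2 * ρ + 1)) (col : κ → Fin (2 * ρ + 1))
    (hκ : ∀ a b, (a = a0 ∨ a = a1) → (∀ j : κ, ¬ (row j = a ∧ col j = b)) →
      ∀ p : Fin N → k, (∀ i, i ∉ T → p i = 0) → eval p (M a b) = 0)
    (hV : ∀ p : Fin N → k, (∀ i, i ∉ T → p i = 0) → (∀ i, eval p (pf i) = 0) → p = 0) :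
    T.card ≤ Fintype.card κ := by
  classical
  refine card_le_of T (fun j => M (row j) (col j)) (fun j => h0 _ _) (fun p hp h => ?_)
  have hz : ∀ a, (a = a0 ∨ a = a1) → ∀ b, eval p (M a b) = 0 := by
    intro a ha' b
    by_cases hj : ∃ j : κ, row j = a ∧ col j = b
    · obtain ⟨j, rfl, rfl⟩ := hj
      exact h j
    · push Not at hj
      exact hκ a b ha' (fun j hj' => hj j hj'.1 hj'.2) p hp
  refine hV p hp (fun i => ?_)
  have hcol : ∀ a, (a = a0 ∨ a = a1) →
      (M.map (eval p)).mulVec (Pi.single a 1) = 0 := by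
    intro a ha'
    funext b
    rw [Matrix.mulVec_single_one]
    simp only [Matrix.col_apply, Matrix.map_apply, Pi.zero_apply]
    rw [hskew a b, map_neg, hz a ha' b, neg_zero]
  have hne : ∀ a : Fin (2 * ρ + 1), (Pi.single a 1 : Fin (2 * ρ + 1) → k) ≠ 0 := by
    intro a h
    have := congrFun h a
    simp at this
  rcases eq_or_ne i a0 with rfl | hi
  · exact eval_pf_eq_zero M i (pf i) (hpf i) p (Pi.single a1 1) (hne a1)
      (by rw [Pi.single_apply, if_neg ha]) (hcol a1 (Or.inr rfl))
  · exact eval_pf_eq_zero M i (pf i) (hpf i) p (Pi.single a0 1) (hne a0)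
      (by rw [Pi.single_apply, if_neg hi]) (hcol a0 (Or.inl rfl))

end Pool.Agent.Y374.PF
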