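import Pool.Agent.Y374.PF.Zero

/-!
# The counting inequality for alternating matrices
-/

set_option autoImplicit false

namespace Pool.Agent.Y374.PF

open MvPolynomial Finset Pool.Agent.TH144.NV

variable {k : Type*} [Field k]

/-- extension by zero of a kernel vector of a block -/
theorem extend_ker {n : ℕ} (A : Matrix (Fin n) (Fin n) k) (U : Finset (Fin n))
    (hcross : ∀ a b, a ∈ U → b ∉ U → A b a = 0)
    (u : {a // a ∈ U} → k) (hu0 : u ≠ 0)
    (hu : (A.submatrix (Subtype.val : {a // a ∈ U} → Fin n) Subtype.val).mulVec u = 0) :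
    ∃ v : Fin n → k, v ≠ 0 ∧ (∀ i, i ∉ U → v i = 0) ∧ A.mulVec v = 0 := by
  classical
  refine ⟨fun i => if h : i ∈ U then u ⟨i, h⟩ else 0, ?_, ?_, ?_⟩
  · intro h
    apply hu0
    funext a
    have := congrFun h a.1
    simpa [a.2] using this
  · intro i hi
    simp [hi]
  · funext b
    have key : ∑ a, A b a * (if h : a ∈ U then u ⟨a, h⟩ else 0)
        = ∑ a : {a // a ∈ U}, A b a.1 * u a := by
      rw [← Finset.sum_subset (Finset.subset_univ U)]
      · rw [← Finset.sum_coe_sort U]
        refine Finset.sum_congr rfl (fun a _ => ?_)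
        rw [dif_pos a.2]
      · intro a _ ha
        rw [dif_neg ha, mul_zero]
    simp only [Matrix.mulVec, dotProduct, Pi.zero_apply]
    rw [key]
    by_cases hb : b ∈ U
    · have := congrFun hu ⟨b, hb⟩
      simpa [Matrix.mulVec, dotProduct] using this
    · refine Finset.sum_eq_zero (fun a _ => ?_)
      rw [hcross a.1 b a.2 hb, zero_mul]

/-- kernel vectors supported on the larger part of a bipartite matrix -/
theorem bip_ker {n : ℕ} (A : Matrix (Fin n) (Fin n) k) (B S R : Finset (Fin n))
    (hBS : ∀ a, a ∉ B → a ∈ S) (hB : ∀ a b, a ∈ B → b ∈ B → A a b = 0)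
    (hcard : S.card + R.card < B.card) :
    ∃ v : Fin n → k, v ≠ 0 ∧ (∀ i, i ∉ B → v i = 0) ∧ (∀ i, i ∈ R → v i = 0) ∧
      A.mulVec v = 0 := by
  classical
  let ext : ({a // a ∈ B} → k) →ₗ[k] (Fin n → k) :=
    { toFun := fun u i => if h : i ∈ B then u ⟨i, h⟩ else 0
      map_add' := by
        intro u v
        funext i
        simp only [Pi.add_apply]
        split_ifs <;> simp
      map_smul' := by
        intro c u
        funext i
        simp only [Pi.smul_apply, RingHom.id_apply]
        split_ifs <;> simp }
  have hext : ∀ u i, ext u i = if h : i ∈ B then u ⟨i, h⟩ else 0 := fun u i => rfl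
  let F : ({a // a ∈ B} → k) →ₗ[k] (({a // a ∈ S} → k) × ({a // a ∈ R} → k)) :=
    { toFun := fun u => (fun s => A.mulVec (ext u) s.1, fun r => ext u r.1)
      map_add' := by
        intro u v
        simp only [map_add, Matrix.mulVec_add]
        rfl
      map_smul' := by
        intro c u
        simp only [map_smul, Matrix.mulVec_smul]
        rfl }
  have h1 : LinearMap.ker F ≠ ⊥ := by
    apply LinearMap.ker_ne_bot_of_finrank_lt
    simpa [Fintype.card_coe] using hcard
  obtain ⟨u, hu, hu0⟩ := (Submodule.ne_bot_iff _).1 h1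
  rw [LinearMap.mem_ker] at hu
  have hu1 : ∀ s : {a // a ∈ S}, A.mulVec (ext u) s.1 = 0 := fun s =>
    congrFun (congrArg Prod.fst hu) s
  have hu2 : ∀ r : {a // a ∈ R}, ext u r.1 = 0 := fun r =>
    congrFun (congrArg Prod.snd hu) r
  refine ⟨ext u, ?_, ?_, fun i hi => hu2 ⟨i, hi⟩, ?_⟩
  · intro h
    apply hu0
    funext a
    have := congrFun h a.1
    rw [hext, dif_pos a.2] at this
    exact this
  · intro i hi
    rw [hext, dif_neg hi]
  · funext b
    by_cases hb : b ∈ B
    · simp only [Matrix.mulVec, dotProduct, Pi.zero_apply]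
      refine Finset.sum_eq_zero (fun a _ => ?_)
      by_cases ha : a ∈ B
      · rw [hB b a hb ha, zero_mul]
      · rw [hext, dif_neg ha, mul_zero]
    · exact hu1 ⟨b, hBS b hb⟩

section main

variable [IsAlgClosed k] [CharZero k] {N ρ : ℕ}

/-- the pairs of indices whose entries may be nonzero -/
noncomputable def pairs {K : Type*} [Mul K] [DecidableEq K] {n : ℕ} (z : Fin n → K) (τ : K) :
    Finset (Fin n × Fin n) :=
  univ.filter fun x => x.1 < x.2 ∧ z x.1 * z x.2 = τ

theorem card_all (n : ℕ) :
    2 * (univ.filter fun x : Fin n × Fin n => x.1 < x.2).card + n = n * n := by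
  classical
  have h1 : (univ.filter fun x : Fin n × Fin n => x.1 < x.2).card
      = (univ.filter fun x : Fin n × Fin n => x.2 < x.1).card := by
    refine Finset.card_bij (fun x _ => (x.2, x.1)) ?_ ?_ ?_
    · intro x hx; simpa using hx
    · intro x _ y _ h
      simp only [Prod.mk.injEq] at h
      exact Prod.ext h.2 h.1
    · intro y hy
      exact ⟨(y.2, y.1), by simpa using hy, rfl⟩
  have h2 : (univ.filter fun x : Fin n × Fin n => x.1 = x.2).card = n := by
    rw [show (univ.filter fun x : Fin n × Fin n => x.1 = x.2)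
      = univ.image (fun a : Fin n => (a, a)) from ?_, Finset.card_image_of_injective]
    · simp
    · intro a b h; simpa using h
    · ext ⟨a, b⟩
      simp
  have h3 : (univ : Finset (Fin n × Fin n)).card = n * n := by simp
  have h4 := Finset.card_filter_add_card_filter_not (s := (univ : Finset (Fin n × Fin n)))
    (fun x => x.1 < x.2)
  have h5 : (univ.filter fun x : Fin n × Fin n => ¬ x.1 < x.2).card
      = (univ.filter fun x : Fin n × Fin n => x.2 < x.1).card
        + (univ.filter fun x : Fin n × Fin n => x.1 = x.2).card := by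
    rw [← Finset.card_union_of_disjoint]
    · congr 1
      ext x
      simp only [mem_filter, mem_univ, true_and, mem_union]
      constructor
      · intro h
        rcases lt_or_eq_of_le (not_lt.1 h) with h' | h'
        · exact Or.inl h'
        · exact Or.inr h'.symm
      · rintro (h | h)
        · exact not_lt.2 h.le
        · exact not_lt.2 h.symm.le
    · rw [Finset.disjoint_filter]
      intro x _ h h'
      exact absurd h' (ne_of_gt h)
  omega

end main

end Pool.Agent.Y374.PF
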