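import Pool.Agent.Y374.PF.Comb

/-!
# The counting inequality for alternating matrices: main lemma
-/

set_option autoImplicit false
set_option linter.unusedSectionVars false

namespace Pool.Agent.Y374.PF

open MvPolynomial Finset Pool.Agent.TH144.NV

variable {k : Type*} [Field k]

section main

variable [IsAlgClosed k] [CharZero k] {N ρ : ℕ}

/-- a graph without isolated vertices, up to one vertex -/
theorem rho_le_pairs (z : Fin (2 * ρ + 1) → kˣ) (τ : kˣ) [DecidableEq kˣ] (i0 : Fin (2 * ρ + 1))
    (h : ∀ a, a ≠ i0 → ∃ b, b ≠ a ∧ z a * z b = τ) : ρ ≤ (pairs z τ).card := by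
  classical
  choose! nb hnb1 hnb2 using h
  let f : Fin (2 * ρ + 1) → Fin (2 * ρ + 1) × Fin (2 * ρ + 1) := fun a =>
    (min a (nb a), max a (nb a))
  have h1 := Finset.card_le_mul_card_image (f := f) (univ.erase i0) 2 (by
    intro y _
    have h2 : ((univ.erase i0).filter fun x => f x = y) ⊆ {y.1, y.2} := by
      intro a ha
      have h3 := (Finset.mem_filter.1 ha).2
      simp only [Finset.mem_insert, Finset.mem_singleton]
      rcases le_total a (nb a) with h4 | h4
      · left
        rw [← h3]
        simp [f, h4]
      · right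
        rw [← h3]
        simp [f, h4]
    exact (Finset.card_le_card h2).trans Finset.card_le_two)
  have h2 : (univ.erase i0).image f ⊆ pairs z τ := by
    intro y hy
    obtain ⟨a, ha, rfl⟩ := Finset.mem_image.1 hy
    have ha' := Finset.ne_of_mem_erase ha
    have h3 := hnb1 a ha'
    have h4 := hnb2 a ha'
    simp only [pairs, mem_filter, mem_univ, true_and, f]
    rcases lt_or_gt_of_ne h3 with h5 | h5
    · rw [min_eq_right h5.le, max_eq_left h5.le]
      exact ⟨h5, by rw [mul_comm]; exact h4⟩
    · rw [min_eq_left h5.le, max_eq_right h5.le]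
      exact ⟨h5, h4⟩
  have h3 := Finset.card_le_card h2
  rw [Finset.card_erase_of_mem (mem_univ _), Finset.card_univ, Fintype.card_fin] at h1
  omega

/-- The main counting lemma. -/
theorem count_uniform (hρ : 1 ≤ ρ)
    (M : Matrix (Fin (2 * ρ + 1)) (Fin (2 * ρ + 1)) (MvPolynomial (Fin N) k))
    (hdiag : ∀ a, M a a = 0) (hskew : ∀ a b, M b a = - M a b) (h0 : ∀ a b, eval 0 (M a b) = 0)
    (pf : Fin (2 * ρ + 1) → MvPolynomial (Fin N) k)
    (hpf : ∀ i, pf i ^ 2 = (M.submatrix i.succAbove i.succAbove).det)
    (T : Finset (Fin N)) (z : Fin (2 * ρ + 1) → kˣ) (τ : kˣ) [DecidableEq kˣ]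
    (hz : ∀ a b, z a * z b ≠ τ → ∀ p : Fin N → k, (∀ i, i ∉ T → p i = 0) → eval p (M a b) = 0)
    (hV : ∀ p : Fin N → k, (∀ i, i ∉ T → p i = 0) → (∀ i, eval p (pf i) = 0) → p = 0) :
    ρ * T.card ≤ (pairs z τ).card := by
  classical
  -- membership in the zero set from kernel vectors
  have F1 : ∀ p : Fin N → k, (∀ i, i ∉ T → p i = 0) →
      (∀ i, ∃ v : Fin (2 * ρ + 1) → k, v ≠ 0 ∧ v i = 0 ∧ (M.map (eval p)).mulVec v = 0) →
      p = 0 := by
    intro p hp h
    refine hV p hp (fun i => ?_)
    obtain ⟨v, hv0, hvi, hv⟩ := h i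
    exact eval_pf_eq_zero M i (pf i) (hpf i) p v hv0 hvi hv
  rcases T.eq_empty_or_nonempty with hT | ⟨t0, ht0⟩
  · simp [hT]
  -- a nonzero point of the subspace
  obtain ⟨p0, hp0, hp0ne⟩ : ∃ p : Fin N → k, (∀ i, i ∉ T → p i = 0) ∧ p ≠ 0 := by
    refine ⟨Pi.single t0 1, ?_, ?_⟩
    · intro i hi
      rw [Pi.single_apply, if_neg]
      rintro rfl
      exact hi ht0
    · intro h
      have := congrFun h t0
      simp at this
  have hex : ∃ i0, ∀ v : Fin (2 * ρ + 1) → k, v i0 = 0 → (M.map (eval p0)).mulVec v = 0 →
      v = 0 := by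
    by_contra hcon
    push Not at hcon
    refine hp0ne (F1 p0 hp0 (fun i => ?_))
    obtain ⟨v, h1, h2, h3⟩ := hcon i
    exact ⟨v, h3, h1, h2⟩
  obtain ⟨i0, hi0⟩ := hex
  have hdeg : ∀ a, a ≠ i0 → ∃ b, b ≠ a ∧ z a * z b = τ := by
    intro a ha
    by_contra hcon
    push Not at hcon
    have h1 := hi0 (Pi.single a 1) (by rw [Pi.single_apply, if_neg (Ne.symm ha)]) (by
      funext b
      rw [Matrix.mulVec_single_one]
      simp only [Matrix.col_apply, Matrix.map_apply, Pi.zero_apply]
      rcases eq_or_ne b a with rfl | hb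
      · rw [hdiag, map_zero]
      · exact hz b a (by rw [mul_comm]; exact hcon b hb) p0 hp0)
    have := congrFun h1 a
    simp at this
  have hρle : ρ ≤ (pairs z τ).card := rho_le_pairs z τ i0 hdeg
  by_cases hT1 : T.card ≤ 1
  · calc ρ * T.card ≤ ρ * 1 := Nat.mul_le_mul_left _ hT1
      _ ≤ _ := by omega
  have hskew' : ∀ (p : Fin N → k) (a b : Fin (2 * ρ + 1)),
      (M.map (eval p)) b a = - (M.map (eval p)) a b := by
    intro p a b
    simp only [Matrix.map_apply]
    rw [hskew a b, map_neg]
  -- connectedness
  have hconn : ∀ a b, z b = z a ∨ z a * z b = τ := by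
    by_contra hcon
    push Not at hcon
    obtain ⟨a0, b0, hab1, hab2⟩ := hcon
    apply hT1
    set U : Finset (Fin (2 * ρ + 1)) := univ.filter fun a => z a = z a0 ∨ z a * z a0 = τ with hU
    have ha0 : a0 ∈ U := by simp [hU]
    have hb0 : b0 ∉ U := by
      simp only [hU, mem_filter, mem_univ, true_and, not_or]
      exact ⟨hab1, by rw [mul_comm]; exact hab2⟩
    have hcross : ∀ a b, a ∈ U → b ∉ U → z a * z b ≠ τ := by
      intro a b ha hb hτ
      simp only [hU, mem_filter, mem_univ, true_and, not_or] at ha hb
      rcases ha with ha | ha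
      · rw [ha, mul_comm] at hτ
        exact hb.2 hτ
      · apply hb.1
        have : z a * z b = z a * z a0 := by rw [hτ, ha]
        exact mul_left_cancel this
    -- the general statement for an even part
    have gen : ∀ E : Finset (Fin (2 * ρ + 1)), E.Nonempty → Odd (Eᶜ.card) →
        (∀ a b, a ∈ E → b ∉ E → z a * z b ≠ τ) → T.card ≤ 1 := by
      intro E hE hO hcr
      set D : MvPolynomial (Fin N) k :=
        (M.submatrix (Subtype.val : {a // a ∈ E} → _) Subtype.val).det with hD
      have hDev : ∀ p : Fin N → k, eval p D =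
          ((M.map (eval p)).submatrix (Subtype.val : {a // a ∈ E} → _) Subtype.val).det := by
        intro p
        rw [hD, RingHom.map_det]
        rfl
      have hEne : Nonempty {a // a ∈ E} := by
        obtain ⟨a, ha⟩ := hE
        exact ⟨⟨a, ha⟩⟩
      have h1 := card_le_of T (κ := Unit) (fun _ => D) (by
        intro _
        rw [hDev]
        have : (M.map (eval (0 : Fin N → k))).submatrix
            (Subtype.val : {a // a ∈ E} → Fin (2 * ρ + 1))
            (Subtype.val : {a // a ∈ E} → Fin (2 * ρ + 1)) = 0 := by
          ext a b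
          simp only [Matrix.submatrix_apply, Matrix.map_apply, Matrix.zero_apply]
          exact h0 _ _
        rw [this]
        exact Matrix.det_zero) (by
        intro p hp hpD
        have hpD' := hpD ()
        rw [hDev, ← Matrix.exists_mulVec_eq_zero_iff] at hpD'
        obtain ⟨u, hu0, hu⟩ := hpD'
        have hcr1 : ∀ a b, a ∈ E → b ∉ E → (M.map (eval p)) b a = 0 := by
          intro a b ha hb
          exact hz b a (by rw [mul_comm]; exact hcr a b ha hb) p hp
        refine F1 p hp (fun i => ?_)
        by_cases hi : i ∈ E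
        · -- use the odd part
          obtain ⟨u', hu0', hu'⟩ := exists_ker_of_odd (k := k) (m := {a // a ∈ Eᶜ})
            (by rw [Fintype.card_coe]; exact hO)
            ((M.map (eval p)).submatrix Subtype.val Subtype.val) (by
              intro a b
              simp only [Matrix.submatrix_apply]
              exact hskew' p _ _)
          obtain ⟨v, hv0, hvU, hv⟩ := extend_ker (M.map (eval p)) Eᶜ (by
            intro a b ha hb
            rw [Finset.mem_compl] at ha hb
            push Not at hb
            have e1 := hskew' p a b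
            rw [hcr1 b a hb ha, neg_zero] at e1
            exact e1)
            u' hu0' hu'
          exact ⟨v, hv0, hvU i (by simpa using hi), hv⟩
        · obtain ⟨v, hv0, hvU, hv⟩ := extend_ker (M.map (eval p)) E hcr1 u hu0 hu
          exact ⟨v, hv0, hvU i hi, hv⟩)
      simpa using h1
    have hcardU : U.card + Uᶜ.card = 2 * ρ + 1 := by
      rw [Finset.card_add_card_compl, Fintype.card_fin]
    rcases Nat.even_or_odd Uᶜ.card with he | ho
    · refine gen Uᶜ ⟨b0, by simpa using hb0⟩ ?_ ?_
      · rw [compl_compl]
        rw [Nat.even_iff] at he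
        rw [Nat.odd_iff]
        omega
      · intro a b ha hb
        rw [Finset.mem_compl] at ha hb
        push Not at hb
        rw [mul_comm]
        exact hcross b a hb ha
    · exact gen U ⟨a0, ha0⟩ ho hcross
  set i1 : Fin (2 * ρ + 1) := ⟨0, by omega⟩ with hi1
  set c := z i1 with hc
  by_cases hcc : c * c = τ
  · -- complete graph
    have hall : ∀ b, z b = c := by
      intro b
      rcases hconn i1 b with h1 | h1
      · exact h1
      · rw [← hc, ← hcc] at h1
        exact mul_left_cancel h1
    have h1 : pairs z τ = univ.filter fun x : Fin (2 * ρ + 1) × Fin (2 * ρ + 1) => x.1 < x.2 := by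
      ext x
      simp [pairs, hall, hcc]
    have h2 := card_all (2 * ρ + 1)
    rw [← h1] at h2
    have h3 := card_le_of T pf (by
      intro i
      have h4 : (eval (0 : Fin N → k) (pf i)) ^ 2 = 0 := by
        rw [← map_pow, hpf, RingHom.map_det]
        have h5 : (eval (0 : Fin N → k)).mapMatrix (M.submatrix i.succAbove i.succAbove) = 0 := by
          ext a b
          simp only [RingHom.mapMatrix_apply, Matrix.map_apply, Matrix.submatrix_apply,
            Matrix.zero_apply]
          exact h0 _ _
        rw [h5]
        have : Nonempty (Fin (2 * ρ)) := ⟨⟨0, by omega⟩⟩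
        exact Matrix.det_zero
      exact (pow_eq_zero_iff two_ne_zero).1 h4) hV
    rw [Fintype.card_fin] at h3
    have h6 : ρ * T.card ≤ ρ * (2 * ρ + 1) := Nat.mul_le_mul_left _ h3
    nlinarith
  · -- bipartite graph
    set P1 : Finset (Fin (2 * ρ + 1)) := univ.filter fun a => z a = c with hP1
    set P2 : Finset (Fin (2 * ρ + 1)) := univ.filter fun a => ¬ z a = c with hP2
    have hP2' : ∀ a, a ∈ P2 → c * z a = τ := by
      intro a ha
      rcases hconn i1 a with h1 | h1
      · exact absurd h1 (Finset.mem_filter.1 ha).2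
      · exact h1
    have hcardP : P1.card + P2.card = 2 * ρ + 1 := by
      rw [hP1, hP2, Finset.card_filter_add_card_filter_not, Finset.card_univ, Fintype.card_fin]
    have hno : ∀ a b, a ∈ P1 → b ∈ P1 → z a * z b ≠ τ := by
      intro a b ha hb
      rw [(Finset.mem_filter.1 ha).2, (Finset.mem_filter.1 hb).2]
      exact hcc
    have hno2 : ∀ a b, a ∈ P2 → b ∈ P2 → z a * z b ≠ τ := by
      intro a b ha hb hτ
      have h1 := hP2' a ha
      have h2 := hP2' b hb
      apply hcc
      have h3 : z a = c := by
        have : z a * z b = c * z b := by rw [hτ, h2]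
        exact mul_right_cancel this
      rw [h3] at h1
      exact h1
    -- general statement
    have gen : ∀ B S : Finset (Fin (2 * ρ + 1)), (∀ a, a ∉ B → a ∈ S) → (∀ a, a ∈ S → a ∉ B) →
        (∀ a b, a ∈ B → b ∈ B → z a * z b ≠ τ) → (∀ a b, a ∈ S → b ∈ S → z a * z b ≠ τ) →
        (∀ a b, a ∈ B → b ∈ S → z a * z b = τ) →
        B.card + S.card = 2 * ρ + 1 → S.card < B.card → ρ * T.card ≤ (pairs z τ).card := by
      intro B S hBS hSB hBB hSS hBSτ hcard hlt
      have hzero : ∀ p : Fin N → k, (∀ i, i ∉ T → p i = 0) → ∀ a b, a ∈ B → b ∈ B →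
          (M.map (eval p)) a b = 0 := fun p hp a b ha hb => hz a b (hBB a b ha hb) p hp
      -- the sizes of the parts
      have hsize : B.card ≤ S.card + 1 := by
        by_contra hcon
        push Not at hcon
        refine hp0ne (F1 p0 hp0 (fun i => ?_))
        obtain ⟨v, hv0, _, hvR, hv⟩ := bip_ker (M.map (eval p0)) B S {i} hBS (hzero p0 hp0)
          (by simpa using hcon)
        exact ⟨v, hv0, hvR i (by simp), hv⟩
      have hB : B.card = ρ + 1 := by omega
      have hS : S.card = ρ := by omega
      obtain ⟨s, hs⟩ : S.Nonempty := by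
        rw [← Finset.card_pos]
        omega
      have h1 := card_le_of T (κ := {b // b ∈ B}) (fun b => M b.1 s) (fun b => h0 _ _) (by
        intro p hp hps
        refine F1 p hp (fun i => ?_)
        have hes : (M.map (eval p)).mulVec (Pi.single s 1) = 0 := by
          funext b
          rw [Matrix.mulVec_single_one]
          simp only [Matrix.col_apply, Matrix.map_apply, Pi.zero_apply]
          by_cases hb : b ∈ B
          · exact hps ⟨b, hb⟩
          · exact hz b s (hSS b s (hBS b hb) hs) p hp
        rcases eq_or_ne i s with rfl | hi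
        · obtain ⟨v, hv0, hvB, _, hv⟩ := bip_ker (M.map (eval p)) B S ∅ hBS (hzero p hp)
            (by simpa using hlt)
          exact ⟨v, hv0, hvB i (hSB i hs), hv⟩
        · refine ⟨Pi.single s 1, ?_, ?_, hes⟩
          · intro h
            have := congrFun h s
            simp at this
          · rw [Pi.single_apply, if_neg hi])
      rw [Fintype.card_coe, hB] at h1
      -- the number of pairs
      have h2 : B.card * S.card ≤ (pairs z τ).card := by
        rw [← Finset.card_product]
        refine Finset.card_le_card_of_injOn (fun x => (min x.1 x.2, max x.1 x.2)) ?_ ?_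
        · intro x hx
          rw [Finset.coe_product, Set.mem_prod] at hx
          have hne : x.1 ≠ x.2 := by
            intro h
            exact hSB x.2 hx.2 (h ▸ hx.1)
          have hτ := hBSτ x.1 x.2 hx.1 hx.2
          simp only [pairs, Finset.coe_filter, mem_univ, true_and, Set.mem_ofPred_eq]
          rcases lt_or_gt_of_ne hne with h5 | h5
          · rw [min_eq_left h5.le, max_eq_right h5.le]
            exact ⟨h5, hτ⟩
          · rw [min_eq_right h5.le, max_eq_left h5.le]
            exact ⟨h5, by rw [mul_comm]; exact hτ⟩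
        · intro x hx y hy hxy
          rw [Finset.coe_product, Set.mem_prod] at hx hy
          simp only [Prod.mk.injEq] at hxy
          obtain ⟨e1, e2⟩ := hxy
          have hxB := hx.1
          have hxS := hSB _ hx.2
          have hyB := hy.1
          have hyS := hSB _ hy.2
          rcases le_total x.1 x.2 with h1 | h1 <;> rcases le_total y.1 y.2 with h2 | h2
          · rw [min_eq_left h1, min_eq_left h2] at e1
            rw [max_eq_right h1, max_eq_right h2] at e2
            exact Prod.ext e1 e2
          · rw [min_eq_left h1, min_eq_right h2] at e1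
            exact absurd (e1 ▸ hxB) hyS
          · rw [min_eq_right h1, min_eq_left h2] at e1
            exact absurd (e1 ▸ hyB) hxS
          · rw [min_eq_right h1, min_eq_right h2] at e1
            rw [max_eq_left h1, max_eq_left h2] at e2
            exact Prod.ext e2 e1
      rw [hB, hS] at h2
      calc ρ * T.card ≤ ρ * (ρ + 1) := Nat.mul_le_mul_left _ h1
        _ = (ρ + 1) * ρ := mul_comm _ _
        _ ≤ _ := h2
    have hmem : ∀ a, a ∈ P1 ↔ z a = c := fun a => by simp [hP1]
    have hmem2 : ∀ a, a ∈ P2 ↔ ¬ z a = c := fun a => by simp [hP2]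
    rcases lt_or_ge P2.card P1.card with hlt | hge
    · refine gen P1 P2 (fun a ha => by rw [hmem2]; rwa [hmem] at ha)
        (fun a ha => by rw [hmem]; rwa [hmem2] at ha) hno hno2 ?_ hcardP hlt
      intro a b ha hb
      rw [(hmem a).1 ha]
      exact hP2' b hb
    · refine gen P2 P1 (fun a ha => by rw [hmem]; rw [hmem2] at ha; push Not at ha; exact ha)
        (fun a ha => by rw [hmem2]; rw [hmem] at ha; push Not; exact ha) hno2 hno ?_
        (by omega) (by omega)
      intro a b ha hb
      rw [(hmem b).1 hb, mul_comm]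
      exact hP2' a ha

end main

end Pool.Agent.Y374.PF
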