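import Mathlib
import Pool.Agent.TH144.NV.Basic
import Pool.Agent.TH144.NV.Avg

/-!
# Zero sets on coordinate subspaces and kernels of alternating matrices
-/

set_option autoImplicit false

namespace Pool.Agent.Y374.PF

open MvPolynomial Finset Pool.Agent.TH144.NV

variable {k : Type*} [Field k]

/-- If polynomials without constant term have only the origin as common zero on a coordinate
subspace, then there are at least as many polynomials as coordinates. -/
theorem card_le_of [IsAlgClosed k] {σ κ : Type*} [Fintype κ] [DecidableEq σ]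
    (T : Finset σ) (g : κ → MvPolynomial σ k) (hg0 : ∀ j, eval 0 (g j) = 0)
    (h : ∀ p : σ → k, (∀ i, i ∉ T → p i = 0) → (∀ j, eval p (g j) = 0) → p = 0) :
    T.card ≤ Fintype.card κ := by
  by_contra hcon
  push Not at hcon
  let ι := {i // i ∈ T}
  let ext : (ι → k) → (σ → k) := fun q i => if h : i ∈ T then q ⟨i, h⟩ else 0
  let r : MvPolynomial σ k →ₐ[k] MvPolynomial ι k :=
    aeval fun i => if h : i ∈ T then X ⟨i, h⟩ else 0
  have hr : ∀ (q : ι → k) (a : MvPolynomial σ k), eval q (r a) = eval (ext q) a := by
    intro q a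
    induction a using MvPolynomial.induction_on with
    | C c => simp [r]
    | add a b ha hb => simp only [map_add, ha, hb]
    | mul_X a i ha =>
      rw [map_mul, map_mul, map_mul, ha, eval_X]
      congr 1
      simp only [r, aeval_X, ext]
      split_ifs <;> simp
  obtain ⟨q, hq0, hq⟩ := Pool.Agent.H952R2.Sextic.exists_common_zero (K := k) (ι := ι) (κ := κ)
    (by simpa [ι, Fintype.card_coe] using hcon) (fun j => r (g j)) (by
      intro j
      rw [hr]
      have : ext 0 = 0 := by
        funext i
        simp [ext]
      rw [this]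
      exact hg0 j)
  have := h (ext q) (fun i hi => by simp [ext, hi]) (fun j => by rw [← hr]; exact hq j)
  apply hq0
  funext i
  have hi := congrFun this i.1
  simpa [ext, i.2] using hi

/-- A weighted homogeneous semi-invariant vanishes at the points fixed up to scaling, if the
characters do not match. -/
theorem eval_eq_zero_of_ne {σ : Type*} [Fintype σ] {w : σ → ℕ} {f : MvPolynomial σ k} {d : ℕ}
    (hf : IsWeightedHomogeneous w f d) (t : σ → k) (s : k) (hs : act t f = C s * f) (μ : k)
    {p : σ → k} (hp : ∀ i, t i * p i = μ ^ w i * p i) (hne : s ≠ μ ^ d) : eval p f = 0 := by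
  have h1 : eval p (act t f) = s * eval p f := by
    rw [hs, map_mul, eval_C]
  rw [eval_act] at h1
  have h2 : (fun i => t i * p i) = fun i => μ ^ w i * p i := funext hp
  rw [h2, eval_wscale hf] at h1
  have h3 : (s - μ ^ d) * eval p f = 0 := by
    rw [sub_mul, ← h1, sub_self]
  rcases mul_eq_zero.1 h3 with h4 | h4
  · exact absurd (sub_eq_zero.1 h4) hne
  · exact h4

/-- If the matrix `A` has, for each index `i`, a nonzero kernel vector with vanishing `i`-th
coordinate, then all its principal minors of colength one vanish. -/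
theorem det_minor_eq_zero {n : ℕ} (A : Matrix (Fin (n + 1)) (Fin (n + 1)) k) (i : Fin (n + 1))
    (v : Fin (n + 1) → k) (hv0 : v ≠ 0) (hvi : v i = 0) (hv : A.mulVec v = 0) :
    (A.submatrix i.succAbove i.succAbove).det = 0 := by
  rw [← Matrix.exists_mulVec_eq_zero_iff]
  refine ⟨fun j => v (i.succAbove j), ?_, ?_⟩
  · intro h
    apply hv0
    funext j
    rcases eq_or_ne j i with rfl | hj
    · exact hvi
    · obtain ⟨l, rfl⟩ := Fin.exists_succAbove_eq hj
      exact congrFun h l
  · funext l
    have h1 := congrFun hv (i.succAbove l)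
    simp only [Matrix.mulVec, dotProduct, Pi.zero_apply] at h1 ⊢
    rw [Fin.sum_univ_succAbove _ i, hvi, mul_zero, zero_add] at h1
    simpa [Matrix.submatrix_apply] using h1

/-- The evaluation of a square root of the principal minor. -/
theorem eval_pf_eq_zero {σ : Type*} {n : ℕ}
    (M : Matrix (Fin (n + 1)) (Fin (n + 1)) (MvPolynomial σ k)) (i : Fin (n + 1))
    (q : MvPolynomial σ k) (hq : q ^ 2 = (M.submatrix i.succAbove i.succAbove).det)
    (p : σ → k) (v : Fin (n + 1) → k) (hv0 : v ≠ 0) (hvi : v i = 0)
    (hv : (M.map (eval p)).mulVec v = 0) : eval p q = 0 := by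
  have h1 := det_minor_eq_zero (M.map (eval p)) i v hv0 hvi hv
  have h2 : (eval p q) ^ 2 = 0 := by
    rw [← map_pow, hq, RingHom.map_det]
    rw [← h1]
    rfl
  exact pow_eq_zero_iff (two_ne_zero) |>.1 h2

/-- An alternating matrix of odd size is singular. -/
theorem exists_ker_of_odd [CharZero k] {m : Type*} [Fintype m] [DecidableEq m]
    (hodd : Odd (Fintype.card m)) (A : Matrix m m k) (hA : ∀ a b, A b a = - A a b) :
    ∃ v : m → k, v ≠ 0 ∧ A.mulVec v = 0 := by
  rw [Matrix.exists_mulVec_eq_zero_iff]
  have h1 : A.transpose = -A := by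
    ext a b
    simp only [Matrix.transpose_apply, Matrix.neg_apply]
    exact hA a b
  have h2 : A.det = (-1) ^ Fintype.card m * A.det := by
    conv_lhs => rw [← Matrix.det_transpose, h1, Matrix.det_neg]
  rw [hodd.neg_one_pow] at h2
  have h3 : (2 : k) * A.det = 0 := by linear_combination h2
  rcases mul_eq_zero.1 h3 with h4 | h4
  · norm_num at h4
  · exact h4

end Pool.Agent.Y374.PF
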